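import Pool.Agent.Helper14.W3.StA

/-!
# Project W3: symbols of level `3^n` and the dimension chain
-/

set_option autoImplicit false

namespace Pool.Agent.Helper14.W3

open Pool.Agent.Helper14.CV

/-- HK. Hecke sum over any system of representatives (`StN1` with `N = 3^n`). Model:
`Pool.Agent.Helper99.CV.hHk`. -/
def S3Hk : Prop := ∀ (R : Type) (_ : AddCommGroup R) (n l : ℕ) (G : ℤ → ℤ → R), l.Prime → l ≠ 3 →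
  Sym3 0 n G → ∀ δ : Fin (l + 1) → Matrix (Fin 2) (Fin 2) ℤ,
  (∀ P, (δ P).det = l) → (∀ P, (3 : ℤ) ^ n ∣ δ P 1 0) →
  (∀ P P', P ≠ P' → ¬ ∀ i j, (l : ℤ) ∣ (δ P * (δ P').adjugate) i j) →
  EqC (fun p q => ∑ P, G (δ P 0 0 * p + δ P 0 1 * q) (δ P 1 0 * p + δ P 1 1 * q)) (Tl l 1 G)

/-- HKS. `T_l` preserves symbols, so does `Bo`. Model: `Pool.Agent.Helper97.CV.hHkS`. -/
def S3HkS : Prop := ∀ (R : Type) (_ : AddCommGroup R) (n : ℕ) (G : ℤ → ℤ → R), Sym3 0 n G →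
  (∀ l : ℕ, l.Prime → l ≠ 3 → Sym3 0 n (Tl l 1 G)) ∧ Sym3 0 n (Bo 1 G)

/-- HKW. `T_l` commutes with the Fricke involution `W = (0 -1; 3^n 0)`, so does `Bo`. Model:
`Pool.Agent.Helper47.CV.hHkW`. -/
def S3HkW : Prop := ∀ (R : Type) (_ : AddCommGroup R) (n : ℕ) (G : ℤ → ℤ → R), Sym3 0 n G →
  (∀ l : ℕ, l.Prime → l ≠ 3 →
    EqC (Tl l 1 (act 0 (-1) (3 ^ n) 0 G)) (act 0 (-1) (3 ^ n) 0 (Tl l 1 G))) ∧
  EqC (Bo 1 (act 0 (-1) (3 ^ n) 0 G)) (act 0 (-1) (3 ^ n) 0 (Bo 1 G))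

/-- HKT. `T_l` commutes with `* = (-1 0; 0 1)`, so does `Bo`. Model:
`Pool.Agent.Helper1.CV.hHkT`. -/
def S3HkT : Prop := ∀ (R : Type) (_ : AddCommGroup R) (n : ℕ) (G : ℤ → ℤ → R), Sym3 0 n G →
  (∀ l : ℕ, l.Prime → l ≠ 3 →
    EqC (Tl l 1 (act (-1) 0 0 1 G)) (act (-1) 0 0 1 (Tl l 1 G))) ∧
  EqC (Bo 1 (act (-1) 0 0 1 G)) (act (-1) 0 0 1 (Bo 1 G))

/-- NRM. The matrices `W`, `t = (3 1; 0 3)`, `t² = (3 2; 0 3)`, `σ = (1 0; 3^(n-1) 1)`,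
`σ² = (1 0; 2·3^(n-1) 1)`, `*` normalise `Γ₀(3^n)` (`n ≥ 2`): they preserve symbols. Use `Sym3.act`. For
`t`: `t (a b; c d) t⁻¹ = (a + c/3, b + (d-a)/3 - c/9; c, d - c/3)`, and `a d ≡ 1` modulo `3` gives
`a ≡ d` modulo `3`. Model: the module Nrm of project CV. -/
def S3Nrm : Prop := ∀ (n : ℕ) (G : ℤ → ℤ → ℂ), 2 ≤ n → Sym3 0 n G →
  Sym3 0 n (act 0 (-1) (3 ^ n) 0 G) ∧ Sym3 0 n (act 3 1 0 3 G) ∧ Sym3 0 n (act 3 2 0 3 G) ∧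
    Sym3 0 n (act 1 0 (3 ^ (n - 1)) 1 G) ∧ Sym3 0 n (act 1 0 (2 * 3 ^ (n - 1)) 1 G) ∧
    Sym3 0 n (act (-1) 0 0 1 G)

/-- EV. `W` exchanges the two ends of `{0, ∞}`: `ev3` changes sign; `*` fixes them. Model:
`Pool.Agent.Helper75.CV.hEv`. -/
def S3Ev : Prop := ∀ (n : ℕ) (G : ℤ → ℤ → ℂ), 2 ≤ n → Sym3 0 n G → ∀ i j : ℕ,
  ev3 1 (act 0 (-1) (3 ^ n) 0 G) i j = -ev3 1 G i j ∧ ev3 1 (act (-1) 0 0 1 G) i j = ev3 1 G i j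

/-- LVL. Descent of the level (`n ≥ 2`). (a) A symbol of level `3^n` invariant (up to a constant)
under `σ = (1 0; 3^(n-1) 1)` has level `3^(n-1)`: `Γ₀(3^(n-1)) = ∪_j Γ₀(3^n) σ^j`. (b) If it is
invariant under `t = (3 1; 0 3)` then its composite with `W = (0 -1; 3^n 0)` has level `3^(n-1)`.
Model: `Pool.Agent.Helper2.CV.hLvl`. -/
def S3Lvl : Prop := ∀ (n : ℕ) (G : ℤ → ℤ → ℂ), 2 ≤ n → Sym3 0 n G →
  (EqC (act 1 0 (3 ^ (n - 1)) 1 G) G → Sym3 0 (n - 1) G) ∧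
  (EqC (act 3 1 0 3 G) G → Sym3 0 (n - 1) (act 0 (-1) (3 ^ n) 0 G))

/-- COM. Relations between `t = (3 1; 0 3)`, `t2 = (3 2; 0 3)`, `σ = (1 0; 3^(n-1) 1)`,
`σ2 = (1 0; 2·3^(n-1) 1)`, `W = (0 -1; 3^n 0)`, `* = (-1 0; 0 1)` on symbols of level `3^n`, `n ≥ 3`, up to
constants. Each is an identity of integral matrices up to a scalar and left multiplication by
an element of `Γ₀(3^n)` (`Sym3.mem`). Convention: `act M (act M' G) = act (M' M) G`. `t t = t2`,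
`t t2 = 1`, `t2 t = 1`, the same for `σ`; `W W = 1`, `* * = 1`; `t^i σ^j = σ^j t^i` (`n ≥ 3`: the
commutator has entries `(1 ± 3^(n-2) .. , ..)`; it lies in `Γ₀(3^n)` after a translation by an integer,
write it down for `i, j ∈ {1, 2}`); `W t ≈ σ2 W`-type relations: `W t^i` is `σ^{-i} W` up to a scalar;
`* t = t2 *`, `* σ = σ2 *`, `* W = W *`. -/
def S3Com : Prop := ∀ (n : ℕ) (G : ℤ → ℤ → ℂ), 3 ≤ n → Sym3 0 n G →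
  EqC (act 3 1 0 3 (act 3 1 0 3 G)) (act 3 2 0 3 G) ∧
  EqC (act 3 1 0 3 (act 3 2 0 3 G)) G ∧
  EqC (act 1 0 (3 ^ (n - 1)) 1 (act 1 0 (3 ^ (n - 1)) 1 G)) (act 1 0 (2 * 3 ^ (n - 1)) 1 G) ∧
  EqC (act 1 0 (3 ^ (n - 1)) 1 (act 1 0 (2 * 3 ^ (n - 1)) 1 G)) G ∧
  EqC (act 0 (-1) (3 ^ n) 0 (act 0 (-1) (3 ^ n) 0 G)) G ∧
  EqC (act (-1) 0 0 1 (act (-1) 0 0 1 G)) G ∧
  (∀ i j : ℤ, EqC (act 3 i 0 3 (act 1 0 (j * 3 ^ (n - 1)) 1 G))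
    (act 1 0 (j * 3 ^ (n - 1)) 1 (act 3 i 0 3 G))) ∧
  (∀ i : ℤ, EqC (act 3 i 0 3 (act 0 (-1) (3 ^ n) 0 G))
    (act 0 (-1) (3 ^ n) 0 (act 1 0 (-i * 3 ^ (n - 1)) 1 G))) ∧
  (∀ i : ℤ, EqC (act 1 0 (i * 3 ^ (n - 1)) 1 (act 0 (-1) (3 ^ n) 0 G))
    (act 0 (-1) (3 ^ n) 0 (act 3 (-i) 0 3 G))) ∧
  (∀ i : ℤ, EqC (act 3 i 0 3 (act (-1) 0 0 1 G)) (act (-1) 0 0 1 (act 3 (-i) 0 3 G))) ∧
  (∀ i : ℤ, EqC (act 1 0 (i * 3 ^ (n - 1)) 1 (act (-1) 0 0 1 G))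
    (act (-1) 0 0 1 (act 1 0 (-i * 3 ^ (n - 1)) 1 G))) ∧
  EqC (act 0 (-1) (3 ^ n) 0 (act (-1) 0 0 1 G)) (act (-1) 0 0 1 (act 0 (-1) (3 ^ n) 0 G)) ∧
  (∀ i : ℤ, EqC (act 3 (i + 3) 0 3 G) (act 3 i 0 3 G)) ∧
  (∀ i : ℤ, EqC (act 1 0 ((i + 3) * 3 ^ (n - 1)) 1 G) (act 1 0 (i * 3 ^ (n - 1)) 1 G))

/-- B3a. Decomposition: every symbol of level `3^n` (`n ≥ 3`) has the same `ev3` as a symbol of
level `3^(n-1)` plus a new symbol with `W = -1`, `* = 1`. Proof: put `A = (G + G∘t + G∘t²)/3`, `B = G - A`,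
`C = (B + B∘σ + B∘σ²)/3`, `E = B - C`, `F = (E - E∘W)/2`, `G1 = (F + F∘*)/2`. By COM `A∘t ≈ A`, `B` and `C` and
`E` have `t`-average `0`, `C∘σ ≈ C`, `E` has `σ`-average `0`, and so have `E∘W`, `F`, `G1`; so `G1` is a
`NewSym3`; by LVL `A∘W` and `C` have level `3^(n-1)`; by EV `ev3 A = -ev3 (A∘W)`, `ev3 E = ev3 F`,
`ev3 F = ev3 G1`. So `G0 = C - A∘W`. Model: `Pool.Agent.Helper71.CV.hB3a`. -/
def S3B3a : Prop := ∀ (n : ℕ) (G : ℤ → ℤ → ℂ), 3 ≤ n → Sym3 0 n G →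
  ∃ G0 G1 : ℤ → ℤ → ℂ, Sym3 0 (n - 1) G0 ∧ NewSym3 n G1 ∧
    ∀ i j : ℕ, ev3 1 G i j = ev3 1 G0 i j + ev3 1 G1 i j

/-- B3b. Level 9: all `ev3 G` are multiples of one vector. Proof: `H = (G - G∘W)/2`, then
`H⁺ = (H + H∘*)/2` has the same `ev3` (EV) and satisfies `H⁺∘W ≈ -H⁺`, `H⁺∘* ≈ H⁺` (the matrix identities
`W W = -9`, `* W = - W *`; use `Sym3` of level `2` and homogeneity). If two such `H, H'` are given,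
`K = x' H - x H'` with `x = H(1,0) - H(0,1)`, `x' = H'(1,0) - H'(0,1)` satisfies `K(1,0) = K(0,1)`,
`K∘W ≈ -K`, `K∘* ≈ K`; such a `K` is constant: by FAR it is enough that `K a c = K b d` for
`(a b; c d)` in `SL₂(ℤ)`. The group `Γ₀(9)` has the twelve cosets with representatives `1`, `S T^j`
(`0 ≤ j ≤ 8`), `(1 0; 3 1)`, `(1 0; -3 1)`, so it is enough that `K(-1/j) = K(0)` for `1 ≤ j ≤ 8`,
`K(1/3) = K(-1/3) = K(0) = K(∞)`. `K` is invariant without constant under `T = (1 1; 0 1)`,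
`L = (1 0; 9 1)`, `P = (-2 1; -9 4)` (fixes `1/3`), `P' = (-2 -1; 9 4)` (fixes `-1/3`), `*` (fixes `∞`).
`-1 = T⁻¹ 0`, `1/2 = P⁻¹ 0`, `-1/2 = T⁻¹ (1/2)`, `-1/4 = P' 0`, `-1/5 = P' (-1)`, `-1/7 = L⁻¹ (1/2)`,
`-1/8 = L⁻¹ 1`, `1/3 = L (-1/6)`, `K(-1/3) = K(1/3)` by `*`, and `K(-1/3) = -K(1/3) + 2 K(∞)` by `W`.
Model: `Pool.Agent.Helper6.CV.hB3b`. -/
def S3B3b : Prop := ∃ e : ℕ → ℕ → ℂ, ∀ G : ℤ → ℤ → ℂ, Sym3 0 2 G → ∃ x : ℂ,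
  ∀ i j : ℕ, ev3 1 G i j = x * e i j

/-- UB. The space of new symbols modulo constants has dimension at most `dd3 n` (`n ≥ 3`). -/
def S3UB : Prop := ∀ n : ℕ, 3 ≤ n → ∃ Θ : NS3 n →ₗ[ℂ] (Fin (dd3 n) → ℂ),
  ∀ G : NS3 n, Θ G = 0 → EqC (G : ℤ → ℤ → ℂ) 0

/-- LB. The image of `ev3` has dimension at least `DD3 n` (`n ≥ 3`). -/
def S3LB : Prop := ∀ n : ℕ, 3 ≤ n → ∃ G : Fin (DD3 n) → (ℤ → ℤ → ℂ), (∀ k, Sym3 0 n (G k)) ∧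
  LinearIndependent ℂ (fun k => evL3 (G k))

/-- CORE. Proof from B3a, B3b, UB, LB as in project CV (base of the induction: level `2`, where
`finrank (V 2) ≤ 1` by B3b and `DD3 2 = 1`). Model: `Pool.Agent.Helper22.CV.hCoreOf`. -/
def S3CoreOf : Prop := S3B3a → S3B3b → S3UB → S3LB → S3Core

end Pool.Agent.Helper14.W3
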