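import Pool.Agent.Helper14.W3.Defs

/-!
# Project W3: basic facts on symbols of level `3^n`
-/

set_option autoImplicit false

namespace Pool.Agent.Helper14.W3

open Pool.Agent.Helper14.CV

variable {R : Type} [AddCommGroup R]

theorem Sym3.add {r s : ℕ} {G H : ℤ → ℤ → R} (h : Sym3 r s G) (h' : Sym3 r s H) :
    Sym3 r s (G + H) :=
  ⟨h.1.add h'.1, fun a b c d hd hb hc => (h.2 a b c d hd hb hc).add (h'.2 a b c d hd hb hc)⟩

theorem Sym3.neg {r s : ℕ} {G : ℤ → ℤ → R} (h : Sym3 r s G) : Sym3 r s (-G) :=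
  ⟨h.1.neg, fun a b c d hd hb hc => (h.2 a b c d hd hb hc).neg⟩

theorem Sym3.sub {r s : ℕ} {G H : ℤ → ℤ → R} (h : Sym3 r s G) (h' : Sym3 r s H) :
    Sym3 r s (G - H) := by
  simpa only [sub_eq_add_neg] using h.add h'.neg

theorem Sym3.smul {S : Type} [Monoid S] [DistribMulAction S R] (x : S) {r s : ℕ}
    {G : ℤ → ℤ → R} (h : Sym3 r s G) : Sym3 r s (x • G) :=
  ⟨h.1.smul x, fun a b c d hd hb hc => (h.2 a b c d hd hb hc).smul x⟩

/-- Scalar multiples of elements of the group act trivially. -/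
theorem Sym3.mem {r s : ℕ} {G : ℤ → ℤ → R} (h : Sym3 r s G) (k a b c d : ℤ) (hk : k ≠ 0)
    (hd : a * d - b * c = 1) (hb : (3 : ℤ) ^ r ∣ b) (hc : (3 : ℤ) ^ s ∣ c) :
    EqC (act (k * a) (k * b) (k * c) (k * d) G) G :=
  (h.1.scale k hk (by rw [hd]; exact one_ne_zero)).trans (h.2 a b c d hd hb hc)

/-- A symbol composed with a matrix which normalises the group is a symbol. -/
theorem Sym3.act {r s r' s' : ℕ} {G : ℤ → ℤ → R} (h : Sym3 r s G) {x y z w : ℤ}
    (hdet : x * w - y * z ≠ 0)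
    (hn : ∀ a b c d : ℤ, a * d - b * c = 1 → (3 : ℤ) ^ r' ∣ b → (3 : ℤ) ^ s' ∣ c →
      ∃ a' b' c' d' : ℤ, a' * d' - b' * c' = 1 ∧ (3 : ℤ) ^ r ∣ b' ∧ (3 : ℤ) ^ s ∣ c' ∧
        x * a + y * c = a' * x + b' * z ∧ x * b + y * d = a' * y + b' * w ∧
        z * a + w * c = c' * x + d' * z ∧ z * b + w * d = c' * y + d' * w) :
    Sym3 r' s' (act x y z w G) := by
  refine ⟨h.1.act hdet, fun a b c d hd hb hc => ?_⟩
  obtain ⟨a', b', c', d', hd', hb', hc', e1, e2, e3, e4⟩ := hn a b c d hd hb hc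
  rw [act_act, e1, e2, e3, e4, ← act_act]
  exact (h.2 a' b' c' d' hd' hb' hc').act hdet

theorem Bo_add (m : ℤ) (G H : ℤ → ℤ → R) : Bo m (G + H) = Bo m G + Bo m H := by
  simp only [Bo, Tl_add]
  abel

theorem Bo_neg (m : ℤ) (G : ℤ → ℤ → R) : Bo m (-G) = -Bo m G := by
  simp only [Bo, Tl_neg]
  abel

theorem Bo_smul {S : Type} [Monoid S] [DistribMulAction S R] (s : S) (m : ℤ)
    (G : ℤ → ℤ → R) : Bo m (s • G) = s • Bo m G := by
  simp only [Bo, Tl_smul, smul_add, smul_sub]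

theorem _root_.Pool.Agent.Helper14.CV.EqC.Bo {G H : ℤ → ℤ → R} (h : EqC G H) (m : ℤ) :
    EqC (Bo m G) (Bo m H) :=
  ((h.Tl (l := 7) (by norm_num) m).add h).sub
    ((h.Tl (l := 2) (by norm_num) m).Tl (l := 2) (by norm_num) m)

theorem Bo_iter_add (m : ℤ) (i : ℕ) (G H : ℤ → ℤ → R) :
    (Bo m)^[i] (G + H) = (Bo m)^[i] G + (Bo m)^[i] H := by
  induction i generalizing G H with
  | zero => rfl
  | succ i ih => rw [Function.iterate_succ_apply, Function.iterate_succ_apply,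
      Function.iterate_succ_apply, Bo_add, ih]

theorem Bo_iter_neg (m : ℤ) (i : ℕ) (G : ℤ → ℤ → R) :
    (Bo m)^[i] (-G) = -(Bo m)^[i] G := by
  induction i generalizing G with
  | zero => rfl
  | succ i ih => rw [Function.iterate_succ_apply, Function.iterate_succ_apply, Bo_neg, ih]

theorem Bo_iter_smul {S : Type} [Monoid S] [DistribMulAction S R] (s : S) (m : ℤ)
    (i : ℕ) (G : ℤ → ℤ → R) : (Bo m)^[i] (s • G) = s • (Bo m)^[i] G := by
  induction i generalizing G with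
  | zero => rfl
  | succ i ih => rw [Function.iterate_succ_apply, Function.iterate_succ_apply, Bo_smul, ih]

theorem _root_.Pool.Agent.Helper14.CV.EqC.Bo_iter {G H : ℤ → ℤ → R} (h : EqC G H) (m : ℤ)
    (i : ℕ) : EqC ((Pool.Agent.Helper14.W3.Bo m)^[i] G) ((Pool.Agent.Helper14.W3.Bo m)^[i] H) := by
  induction i generalizing G H with
  | zero => exact h
  | succ i ih =>
    rw [Function.iterate_succ_apply, Function.iterate_succ_apply]
    exact ih (h.Bo m)

theorem ev3_congr (m : ℤ) {G H : ℤ → ℤ → R} (h : EqC G H) (i j : ℕ) :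
    ev3 m G i j = ev3 m H i j := by
  have h2 := (h.Tl_iter (l := 2) (by norm_num) m i).Bo_iter m j
  exact h2.diff (Or.inl one_ne_zero) (Or.inr one_ne_zero)

theorem ev3_add (m : ℤ) (G H : ℤ → ℤ → R) (i j : ℕ) :
    ev3 m (G + H) i j = ev3 m G i j + ev3 m H i j := by
  simp only [ev3, Tl_iter_add, Bo_iter_add, Pi.add_apply]
  abel

theorem ev3_neg (m : ℤ) (G : ℤ → ℤ → R) (i j : ℕ) : ev3 m (-G) i j = -ev3 m G i j := by
  simp only [ev3, Tl_iter_neg, Bo_iter_neg, Pi.neg_apply]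
  abel

theorem ev3_smul {S : Type} [Monoid S] [DistribMulAction S R] (s : S) (m : ℤ) (G : ℤ → ℤ → R)
    (i j : ℕ) : ev3 m (s • G) i j = s • ev3 m G i j := by
  simp only [ev3, Tl_iter_smul, Bo_iter_smul, Pi.smul_apply, smul_sub]

/-- `ev3` as a linear map. -/
noncomputable def evL3 : (ℤ → ℤ → ℂ) →ₗ[ℂ] (ℕ → ℕ → ℂ) where
  toFun G i j := ev3 1 G i j
  map_add' G H := by funext i j; exact ev3_add 1 G H i j
  map_smul' s G := by funext i j; exact ev3_smul s 1 G i j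

/-- Symbols of level `3^n` as a subspace. -/
def XS3 (n : ℕ) : Submodule ℂ (ℤ → ℤ → ℂ) where
  carrier := {G | Sym3 0 n G}
  add_mem' h h' := Sym3.add h h'
  zero_mem' := ⟨fun _ _ _ _ _ => rfl, fun _ _ _ _ _ _ _ => EqC.refl _⟩
  smul_mem' s _ h := Sym3.smul s h

private theorem add3 {A B C A' B' C' : ℤ → ℤ → ℂ} (h : EqC (A + B + C) 0)
    (h' : EqC (A' + B' + C') 0) : EqC (A + A' + (B + B') + (C + C')) 0 := by
  have e : A + A' + (B + B') + (C + C') = (A + B + C) + (A' + B' + C') := by abel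
  have := h.add h'
  rw [← e, add_zero] at this
  exact this

theorem NewSym3.add {n : ℕ} {G H : ℤ → ℤ → ℂ} (h : NewSym3 n G) (h' : NewSym3 n H) :
    NewSym3 n (G + H) := by
  obtain ⟨a1, a2, a3, a4, a5⟩ := h
  obtain ⟨b1, b2, b3, b4, b5⟩ := h'
  refine ⟨a1.add b1, add3 a2 b2, add3 a3 b3, ?_, a5.add b5⟩
  rw [neg_add]; exact a4.add b4

theorem NewSym3.smul {n : ℕ} (s : ℂ) {G : ℤ → ℤ → ℂ} (h : NewSym3 n G) : NewSym3 n (s • G) := by
  obtain ⟨a1, a2, a3, a4, a5⟩ := h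
  refine ⟨a1.smul s, ?_, ?_, ?_, a5.smul s⟩
  · have := a2.smul s
    rw [smul_zero, smul_add, smul_add] at this
    exact this
  · have := a3.smul s
    rw [smul_zero, smul_add, smul_add] at this
    exact this
  · rw [← smul_neg]; exact a4.smul s

/-- New symbols of level `3^n` (`W = -1`, `* = +1`) as a subspace. -/
def NS3 (n : ℕ) : Submodule ℂ (ℤ → ℤ → ℂ) where
  carrier := {G | NewSym3 n G}
  add_mem' h h' := NewSym3.add h h'
  zero_mem' := by
    refine ⟨⟨fun _ _ _ _ _ => rfl, fun _ _ _ _ _ _ _ => EqC.refl _⟩, ?_, ?_, ?_, EqC.refl _⟩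
    · refine EqC.of_eq fun p q _ => ?_
      simp [act]
    · refine EqC.of_eq fun p q _ => ?_
      simp [act]
    · rw [neg_zero]; exact EqC.refl _
  smul_mem' s _ h := NewSym3.smul s h

end Pool.Agent.Helper14.W3
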