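import Pool.Agent.Helper14.CV.StB

/-!
# Nonvanishing of central values for newforms of weight 2 and level 3^n: definitions

`G0`, `fc`, `HeckeEig`, `Lan`, `Lam`, `RootOne`, `Homog`, `EqC`, `act`, `Tl`, `Fp`, `fz`, `IsPot` are
those of `Helper14/CV/Defs.lean` (they do not depend on the level).
-/

set_option autoImplicit false

open UpperHalfPlane CongruenceSubgroup
open scoped MatrixGroups

namespace Pool.Agent.Helper14.W3

open Pool.Agent.Helper14.CV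

/-- `f` is a newform of weight `2`, level `3^n` and trivial character: it is a cusp form on
`Γ₀(3^n)` with first coefficient `1`, an eigenform of all Hecke operators `T_p`, `p ≠ 3` prime, and
of `U_3`, and its eigenvalues at the primes `p ≠ 3` do not come from the lower level `3^(n-1)`
(no nonzero cusp form on `Γ₀(3^(n-1))` has the same eigenvalues at all primes `p ≠ 3`). -/
structure IsNewform3 (n : ℕ) (f : CuspForm (G0 (3 ^ n)) 2) : Prop where
  normalised : fc f 1 = 1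
  hecke : ∀ p : ℕ, p.Prime → p ≠ 3 → HeckeEig f p (fc f p)
  hecke_three : ∀ m : ℕ, fc f (3 * m) = fc f 3 * fc f m
  new : ∀ g : CuspForm (G0 (3 ^ (n - 1))) 2,
    (∀ p : ℕ, p.Prime → p ≠ 3 → HeckeEig g p (fc f p)) → g = 0

/-- Potentials of symbols for the group of all `(a b; c d)` in `SL₂(ℤ)` with
`3^r ∣ b` and `3^s ∣ c`. -/
def Sym3 {R : Type} [AddCommGroup R] (r s : ℕ) (G : ℤ → ℤ → R) : Prop :=
  Homog G ∧ ∀ a b c d : ℤ, a * d - b * c = 1 → (3 : ℤ) ^ r ∣ b → (3 : ℤ) ^ s ∣ c →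
    EqC (act a b c d G) G

/-- The operator `T_7 + 1 - T_2²` (with the translations `j ↦ m j`). -/
def Bo {R : Type} [AddCommGroup R] (m : ℤ) (G : ℤ → ℤ → R) : ℤ → ℤ → R :=
  Tl 7 m G + G - Tl 2 m (Tl 2 m G)

/-- The value of the symbol of `G` at `(T_7 + 1 - T_2²)^j T_2^i {0, ∞}`. -/
def ev3 {R : Type} [AddCommGroup R] (m : ℤ) (G : ℤ → ℤ → R) (i j : ℕ) : R :=
  ((Bo m)^[j] ((Tl 2 m)^[i] G)) 1 0 - ((Bo m)^[j] ((Tl 2 m)^[i] G)) 0 1

/-- New symbols of level `3^n` with `W = -1` and `* = +1`. -/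
def NewSym3 (n : ℕ) (G : ℤ → ℤ → ℂ) : Prop :=
  Sym3 0 n G ∧ EqC (G + act 3 1 0 3 G + act 3 2 0 3 G) 0 ∧
    EqC (G + act 1 0 (3 ^ (n - 1)) 1 G + act 1 0 (2 * 3 ^ (n - 1)) 1 G) 0 ∧
    EqC (act 0 (-1) (3 ^ n) 0 G) (-G) ∧ EqC (act (-1) 0 0 1 G) G

/-- The bound for the dimension of the new symbols of level `3^n` with `W = -1`, `* = +1`. -/
def dd3 (n : ℕ) : ℕ :=
  if n ≤ 2 then 0
  else if n = 3 then 1
  else if n % 2 = 0 then 2 * 9 ^ (n / 2 - 2)
  else 2 * 3 ^ (n / 2 - 2) * (3 ^ (n / 2 - 1) + 1)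

/-- `1 + ∑_{m ≤ n} dd3 m`. -/
def DD3 (n : ℕ) : ℕ := 1 + ∑ m ∈ Finset.range (n + 1), dd3 m

end Pool.Agent.Helper14.W3
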