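import Pool.Agent.Helper14.W3.Basic

/-!
# Project W3: analytic statements and the dimension chain for level `3^n`

Copies of the statements of `Helper14/CV/StA.lean`, `StB.lean` with `2^n` replaced by `3^n`. The proofs
of the modules of project CV (`Pool/Agent/Helper*/CV/M_*.lean`) can be adapted.
-/

set_option autoImplicit false

open UpperHalfPlane CongruenceSubgroup
open scoped MatrixGroups

namespace Pool.Agent.Helper14.W3

open Pool.Agent.Helper14.CV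

/-- A3T. Integration of `f(z) + f(z+1/3) + f(z+2/3) = 0` (the constant is `0` by A1b). Model:
`Pool.Agent.Helper72.CV.hA3T`. -/
def S3A3T : Prop := ∀ (N : ℕ) (_ : NeZero N) (f : CuspForm (G0 N) 2),
  (∀ z : ℂ, 0 < z.im → fz f z + fz f (z + 1 / 3) + fz f (z + 2 / 3) = 0) →
  ∀ z : ℂ, 0 < z.im → Fp f z + Fp f (z + 1 / 3) + Fp f (z + 2 / 3) = 0

/-- N2. The trace of `f` from level `3M` to level `M`, `3 ∣ M`, as a cusp form: `Γ₀(M)` is the union
of `Γ₀(3M) (1 0; jM 1)`, `j = 0, 1, 2`. Model: `Pool.Agent.Helper99.CV.hN2`. -/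
def S3N2 : Prop := ∀ (M : ℕ) (_ : NeZero M) (f : CuspForm (G0 (3 * M)) 2), 3 ∣ M →
  ∃ g : CuspForm (G0 M) 2, ∀ z : ℂ, 0 < z.im →
    fz g z = fz f z + ((M * z + 1) ^ 2)⁻¹ * fz f (z / (M * z + 1)) +
      ((2 * M * z + 1) ^ 2)⁻¹ * fz f (z / (2 * M * z + 1))

/-- N3. The trace commutes with `T_p`, `p ≠ 3` prime. Proof: `Fp g z = ∑_{j<3} Fp f (σ_j z) + const`,
`σ_j = (1 0; jM 1)`. For `δ = (1 i; 0 p)` or `(p 0; 0 1)` the matrix `σ_j δ σ_{j'}⁻¹` with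
`j' ≡ p j` modulo `3` is integral with lower left entry divisible by `3M` (it is
`M (j - j' p - j j' M i)` resp. `M (p j - j')`; `p² ≡ 1` modulo `3`, `3 ∣ M`), so by N1 applied to the
family `σ_j δ_P σ_{j'}⁻¹` and A3, A2, `∑_P Fp f (σ_j δ_P z) = lam Fp f (σ_{j'} z) + const`; sum over `j`
(`j ↦ j'` is a permutation), A2c. Model: `Pool.Agent.Helper16.CV.hN3`. -/
def S3N3 : Prop := ∀ (M : ℕ) (_ : NeZero M) (f : CuspForm (G0 (3 * M)) 2)
  (g : CuspForm (G0 M) 2) (p : ℕ) (lam : ℂ), 3 ∣ M → p.Prime → ¬ p ∣ 3 * M → HeckeEig f p lam →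
  (∀ z : ℂ, 0 < z.im →
    fz g z = fz f z + ((M * z + 1) ^ 2)⁻¹ * fz f (z / (M * z + 1)) +
      ((2 * M * z + 1) ^ 2)⁻¹ * fz f (z / (2 * M * z + 1))) →
  HeckeEig g p lam

/-- N4. A newform of level `3^n`, `n ≥ 2`, with root number `+1` satisfies
`f(z) + f(z + 1/3) + f(z + 2/3) = 0`. Proof: the trace `g` of `f` to level `3^(n-1)` is `0` (N2, N3 and
the field `new`), so `∑_j (jMz+1)^{-2} f(σ_j z) = 0`, `σ_j = (1 0; jM 1)`, `M = 3^(n-1)`. Conjugate with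
`W z = -1/(3M z)`: `W σ_j W⁻¹ z = z - j/3`, use `StA8`; shift `z` by `2/3`, periodicity `f(z+1) = f(z)`.
Model: `Pool.Agent.Helper36.CV.hN4`. -/
def S3N4 : Prop := ∀ (n : ℕ) (f : CuspForm (G0 (3 ^ n)) 2), 2 ≤ n → IsNewform3 n f → RootOne f →
  ∀ z : ℂ, 0 < z.im → fz f z + fz f (z + 1 / 3) + fz f (z + 2 / 3) = 0

/-- P2. The potential of `f` is a symbol. Model: `Pool.Agent.Helper87.CV.hP2`. -/
def S3P2 : Prop := ∀ (n : ℕ) (f : CuspForm (G0 (3 ^ n)) 2) (G : ℤ → ℤ → ℂ),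
  IsPot f G → Sym3 0 n G

/-- P4. Fricke relation for the potential. Model: `Pool.Agent.Helper86.CV.hP4`. -/
def S3P4 : Prop := ∀ (n : ℕ) (f : CuspForm (G0 (3 ^ n)) 2) (G : ℤ → ℤ → ℂ), IsPot f G →
  (∀ z : ℂ, 0 < z.im → fz f (-1 / (((3 ^ n : ℕ) : ℂ) * z)) =
    -(((3 ^ n : ℕ) : ℂ) * z ^ 2 * fz f z)) →
  EqC (act 0 (-1) (3 ^ n) 0 G) (-G)

/-- P5. Relation for the translations by `1/3`. Model: `Pool.Agent.Helper86.CV.hP5`. -/
def S3P5 : Prop := ∀ (N : ℕ) (_ : NeZero N) (f : CuspForm (G0 N) 2) (G : ℤ → ℤ → ℂ), IsPot f G →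
  (∀ z : ℂ, 0 < z.im → fz f z + fz f (z + 1 / 3) + fz f (z + 2 / 3) = 0) →
  EqC (G + act 3 1 0 3 G + act 3 2 0 3 G) 0

/-- Core: a new symbol of level `3^n` with `W = -1`, `* = +1` which is killed by all
`(T_7 + 1 - T_2²)^j T_2^i {0, ∞}` is trivial. -/
def S3Core : Prop := ∀ (n : ℕ) (G : ℤ → ℤ → ℂ), 3 ≤ n → NewSym3 n G →
  (∀ i j : ℕ, ev3 1 G i j = 0) → EqC G 0

/-- Final statement. With `G` the potential of the newform `f` (root number `+1`, `L(1/2) = 0`), the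
function `G⁺ p q = G p q + G (-p) q` satisfies `NewSym3 n G⁺` (the relation for `σ = (1 0; 3^(n-1) 1)`
follows from the relations for `W` and the translations by `1/3` as `W σ^j W⁻¹` is the translation
by `-j/3`), is an eigenvector of `Tl 2 1`, `Tl 7 1` away from the origin, hence of `Bo 1`
(eigenvalue `a_7 + 1 - a_2²`), and `G⁺ 0 1 = G⁺ 1 0` by A5; so all `ev3 1 G⁺ i j` vanish, `G⁺` is
constant by the core, and `f = 0` by A6, against `fc f 1 = 1`. Model: `Pool.Agent.Helper19.CV.hFinal`. -/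
def S3Final : Prop := ∀ (n : ℕ) (f : CuspForm (G0 (3 ^ n)) 2), 3 ≤ n → IsNewform3 n f →
  RootOne f → Lan f (1 / 2) ≠ 0

end Pool.Agent.Helper14.W3
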